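import Mathlib

namespace Pool.Agent.Results.MP_c07d1e_lc.Union

/-- An FC[REG]-CQ: word equations `x = α` and regular constraints `y ∈ γ`. -/
structure CQ (A X : Type) where
  eqs : List (X × List (A ⊕ X))
  regs : List (X × RegularExpression A)

/-- The morphism on patterns given by a substitution. -/
def ev {A X : Type} (σ : X → List A) (α : List (A ⊕ X)) : List A :=
  α.flatMap (Sum.elim (fun a => [a]) σ)

def Sat {A X : Type} (φ : CQ A X) (σ : X → List A) : Prop :=
  (∀ e ∈ φ.eqs, σ e.1 = ev σ e.2) ∧ ∀ r ∈ φ.regs, σ r.1 ∈ r.2.matches'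

def lang {A X : Type} (w : X) (φ : CQ A X) : Set (List A) :=
  {v | ∃ σ : X → List A, (∀ x, σ x <:+: σ w) ∧ Sat φ σ ∧ σ w = v}

section
variable {A X : Type}

def IsReg (Q : List A → Prop) : Prop := ∃ γ : RegularExpression A, ∀ x, x ∈ γ.matches' ↔ Q x

theorem IsReg.congr {P Q : List A → Prop} (h : IsReg P) (e : ∀ x, P x ↔ Q x) : IsReg Q :=
  let ⟨γ, h⟩ := h; ⟨γ, fun x => (h x).trans (e x)⟩

theorem reg_nil : IsReg (fun x : List A => x = []) := ⟨1, fun _ => Iff.rfl⟩

theorem IsReg.or {P Q : List A → Prop} (h : IsReg P) (h' : IsReg Q) :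
    IsReg (fun x => P x ∨ Q x) :=
  let ⟨γ, h⟩ := h; let ⟨δ, h'⟩ := h'
  ⟨γ + δ, fun x => by simp [Language.mem_add, h, h']⟩

theorem IsReg.cat {P Q : List A → Prop} (h : IsReg P) (h' : IsReg Q) :
    IsReg (fun x => ∃ y z, P y ∧ Q z ∧ y ++ z = x) :=
  let ⟨γ, h⟩ := h; let ⟨δ, h'⟩ := h'
  ⟨γ * δ, fun x => by simp [Language.mem_mul, h, h']⟩

theorem IsReg.star {P : List A → Prop} (h : IsReg P) :
    IsReg (fun x => ∃ L : List (List A), x = L.flatten ∧ ∀ y ∈ L, P y) :=
  let ⟨γ, h⟩ := h
  ⟨γ.star, fun x => by simp [Language.mem_kstar, h]⟩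

theorem reg_list (l : List A) : IsReg (fun x : List A => ∃ a ∈ l, x = [a]) := by
  induction l with
  | nil => exact ⟨0, fun x => by simp⟩
  | cons a l ih =>
    have : IsReg (fun x : List A => x = [a]) := ⟨RegularExpression.char a, fun _ => Iff.rfl⟩
    exact (this.or ih).congr (by simp)

theorem reg_letter [Finite A] (p : A → Prop) : IsReg (fun x : List A => ∃ a, p a ∧ x = [a]) :=
  (reg_list (Set.toFinite {a | p a}).toFinset.toList).congr (by simp)

theorem reg_all [Finite A] (p : A → Prop) : IsReg (fun x : List A => ∀ a ∈ x, p a) := by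
  refine (reg_letter p).star.congr fun x => ⟨?_, fun h => ⟨x.map fun a => [a], ?_, ?_⟩⟩
  · rintro ⟨L, rfl, hL⟩ a ha
    obtain ⟨y, hy, hay⟩ := List.mem_flatten.1 ha
    obtain ⟨b, hb, rfl⟩ := hL y hy
    obtain rfl : a = b := by simpa using hay
    exact hb
  · clear h
    induction x with
    | nil => rfl
    | cons a x ih => exact congrArg (List.cons a) ih
  · simpa using h

theorem even_split : ∀ x : List A, x.length % 2 = 0 →
    ∃ L : List (List A), x = L.flatten ∧ ∀ y ∈ L, y.length = 2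
  | [], _ => ⟨[], rfl, by simp⟩
  | [_], h => by simp at h
  | a :: b :: x, h => by
    obtain ⟨L, h1, h2⟩ := even_split x (by simp at h; omega)
    exact ⟨[a, b] :: L, by simp [h1], by simpa using h2⟩

theorem reg_one [Finite A] : IsReg (fun x : List A => x.length = 1) :=
  (reg_letter fun _ => True).congr (by simp [List.length_eq_one_iff])

theorem reg_even [Finite A] : IsReg (fun x : List A => x.length % 2 = 0) := by
  have h2 : IsReg (fun x : List A => x.length = 2) := by
    refine (reg_one.cat reg_one).congr fun x => ⟨?_, fun h => ?_⟩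
    · rintro ⟨y, z, h1, h2, rfl⟩
      simp [h1, h2]
    · obtain ⟨a, b, rfl⟩ := List.length_eq_two.1 h
      exact ⟨[a], [b], rfl, rfl, rfl⟩
  refine h2.star.congr fun x => ⟨?_, even_split x⟩
  rintro ⟨L, rfl, hL⟩
  induction L with
  | nil => rfl
  | cons y L ih =>
    have := hL y (by simp)
    have := ih fun z hz => hL z (by simp [hz])
    simp only [List.flatten_cons, List.length_append]
    omega

theorem reg_odd [Finite A] : IsReg (fun x : List A => x.length % 2 = 1) := by
  refine (reg_one.cat reg_even).congr fun x => ⟨?_, fun h => ?_⟩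
  · rintro ⟨y, z, h1, h2, rfl⟩
    simp only [List.length_append]
    omega
  · cases x with
    | nil => simp at h
    | cons a x => exact ⟨[a], x, rfl, by simp at h; omega, rfl⟩

theorem reg_par [Finite A] (b : Fin 2) :
    IsReg (fun x : List A => x = [] ∨ x.length % 2 = b) := by
  fin_cases b
  · exact reg_nil.or reg_even
  · exact reg_nil.or reg_odd

def Df (P : (X → List A) → Prop) : Prop := ∃ φ : CQ A X, ∀ σ, Sat φ σ ↔ P σ

theorem df_eq (x : X) (α : List (A ⊕ X)) : Df (fun σ : X → List A => σ x = ev σ α) :=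
  ⟨⟨[(x, α)], []⟩, by simp [Sat]⟩

theorem df_reg (x : X) {Q : List A → Prop} (h : IsReg Q) : Df (fun σ : X → List A => Q (σ x)) :=
  let ⟨γ, h⟩ := h; ⟨⟨[], [(x, γ)]⟩, by simp [Sat, h]⟩

theorem Df.and {P Q : (X → List A) → Prop} (h : Df P) (h' : Df Q) : Df (fun σ => P σ ∧ Q σ) := by
  obtain ⟨φ, h⟩ := h
  obtain ⟨ψ, h'⟩ := h'
  refine ⟨⟨φ.eqs ++ ψ.eqs, φ.regs ++ ψ.regs⟩, fun σ => ?_⟩
  simp only [← h, ← h', Sat, List.forall_mem_append]
  tauto

theorem Df.congr {P Q : (X → List A) → Prop} (h : Df P) (e : ∀ x, P x ↔ Q x) : Df Q :=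
  let ⟨γ, h⟩ := h; ⟨γ, fun x => (h x).trans (e x)⟩

theorem df_list {ι : Type} (l : List ι) {P : ι → (X → List A) → Prop} (h : ∀ i ∈ l, Df (P i)) :
    Df (fun σ => ∀ i ∈ l, P i σ) := by
  induction l with
  | nil => exact ⟨⟨[], []⟩, by simp [Sat]⟩
  | cons a l ih =>
    exact ((h a (by simp)).and (ih fun i hi => h i (by simp [hi]))).congr (by simp)

theorem df_all {ι : Type} [Finite ι] {P : ι → (X → List A) → Prop} (h : ∀ i, Df (P i)) :
    Df (fun σ => ∀ i, P i σ) := by
  have := Fintype.ofFinite ι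
  exact (df_list (Finset.univ : Finset ι).toList fun i _ => h i).congr (by simp)

theorem df_imp (p : Prop) {P : (X → List A) → Prop} (h : Df P) : Df (fun σ => p → P σ) := by
  by_cases hp : p
  · exact h.congr (by simp [hp])
  · exact ⟨⟨[], []⟩, by simp [Sat, hp]⟩

theorem ev_map {Y : Type} (σ : Y → List A) (τ : X → List A) (F : A ⊕ X → A ⊕ Y)
    (α : List (A ⊕ X))
    (h : ∀ s ∈ α, Sum.elim (fun a => [a]) σ (F s) = Sum.elim (fun a => [a]) τ s) :
    ev σ (α.map F) = ev τ α := by
  simp only [ev, List.flatMap_map]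
  exact List.flatMap_congr h

theorem transfer {Y : Type} [Countable Y] [Infinite X] (w : X) (w' : Y) (φ : CQ A Y) :
    ∃ ψ : CQ A X, lang w ψ = lang w' φ := by
  classical
  obtain ⟨e0, he0⟩ := exists_injective_nat Y
  let e : Y → X := fun y => Equiv.swap (Infinite.natEmbedding X (e0 w')) w
    (Infinite.natEmbedding X (e0 y))
  have he : Function.Injective e :=
    (Equiv.injective _).comp ((Infinite.natEmbedding X).injective.comp he0)
  have hw : e w' = w := Equiv.swap_apply_left _ _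
  let ψ : CQ A X := ⟨φ.eqs.map fun q => (e q.1, q.2.map (Sum.map id e)),
    φ.regs.map fun r => (e r.1, r.2)⟩
  have hs : ∀ σ, Sat ψ σ ↔ Sat φ (σ ∘ e) := by
    intro σ
    have : ∀ α, ev σ (List.map (Sum.map id e) α) = ev (σ ∘ e) α := fun α =>
      ev_map _ _ _ _ (by rintro (a | a) _ <;> rfl)
    simp only [Sat, ψ, List.forall_mem_map, this, Function.comp]
  refine ⟨ψ, Set.ext fun v => ⟨?_, ?_⟩⟩
  · rintro ⟨σ, h1, h2, rfl⟩
    exact ⟨σ ∘ e, fun x => by simpa [hw] using h1 (e x), (hs σ).1 h2, by simp [hw]⟩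
  · rintro ⟨τ, h1, h2, rfl⟩
    have h3 : Function.extend e τ (fun _ => []) ∘ e = τ := funext fun y => he.extend_apply _ _ y
    have h4 : Function.extend e τ (fun _ => []) w = τ w' := by rw [← hw]; exact congrFun h3 w'
    refine ⟨Function.extend e τ fun _ => [], fun x => ?_, (hs _).2 (by rwa [h3]), h4⟩
    rw [h4]
    by_cases hx : ∃ y, e y = x
    · obtain ⟨y, rfl⟩ := hx
      rw [he.extend_apply]
      exact h1 y
    · rw [Function.extend_apply' _ _ _ hx]
      exact List.nil_infix

inductive W (A X : Type)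
  | z (x : X) | y (x : X) | u | r | c (a : A) | t (a : A) | p (a : A) | s (a : A)
  deriving Countable

def Used (φ : CQ A X) (g : X → Option A) (a : A) : Prop :=
  (∃ e ∈ φ.eqs, Sum.inl a ∈ e.2) ∨ ∃ r ∈ φ.regs, g r.1 = some a

/-- The switched copy of `φ`. -/
structure Blk (w : X) (φ : CQ A X) (b : Fin 2) (g : X → Option A) (σ : W A X → List A) :
    Prop where
  h1 : σ (.z w) = σ .u ++ σ .r
  h2 : σ (.z w) = [] ∨ (σ (.z w)).length % 2 = b
  h3 : σ .r = [] ∨ (σ .r).length % 2 = (b + 1 : Fin 2)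
  h4 : ∀ a, Used φ g a → σ (.t a) = σ .u ++ σ (.s a) ∧ σ (.t a) = σ (.p a) ++ σ (.c a) ∧
    (σ (.t a) = [] ∨ ∃ y z, (∀ d ∈ y, d ≠ a) ∧ (∃ d, d = a ∧ z = [d]) ∧ y ++ z = σ (.t a)) ∧
    (∀ d ∈ σ (.p a), d ≠ a) ∧ (σ (.c a) = [] ∨ ∃ d, d = a ∧ σ (.c a) = [d])
  h5 : ∀ e ∈ φ.eqs, σ (.z e.1) = ev σ (e.2.map fun s => Sum.inr (Sum.elim .c .z s))
  h6 : ∀ r ∈ φ.regs, (σ (.z r.1) = [] ∨ σ (.z r.1) ∈ r.2.matches') ∧
    (∀ a, g r.1 = some a → σ (.z r.1) = σ (.c a) ++ σ (.y r.1)) ∧
    (g r.1 = none ∧ [] ∉ r.2.matches' → σ .u = [])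

theorem df_app {Y : Type} (x y z : Y) : Df (fun σ : Y → List A => σ x = σ y ++ σ z) :=
  (df_eq x [.inr y, .inr z]).congr (by simp [ev])

theorem df_blk [Finite A] {Y : Type} (e : W A X → Y) (w : X) (φ : CQ A X) (b : Fin 2)
    (g : X → Option A) : Df (fun σ : Y → List A => Blk w φ b g (σ ∘ e)) := by
  have d4 := df_all (A := A) (X := Y) fun a => df_imp (Used φ g a)
    ((df_app (e (.t a)) (e .u) (e (.s a))).and ((df_app (e (.t a)) (e (.p a)) (e (.c a))).and
    ((df_reg (e (.t a)) (reg_nil.or ((reg_all (· ≠ a)).cat (reg_letter (· = a))))).and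
    ((df_reg (e (.p a)) (reg_all (· ≠ a))).and
    (df_reg (e (.c a)) (reg_nil.or (reg_letter (· = a))))))))
  have d5 := df_list (A := A) (X := Y) φ.eqs fun q _ =>
    df_eq (e (.z q.1)) ((q.2.map fun s => Sum.inr (Sum.elim .c .z s)).map (Sum.map id e))
  have d6 := df_list (A := A) (X := Y) φ.regs fun r _ =>
    (df_reg (e (.z r.1)) (reg_nil.or ⟨r.2, fun _ => Iff.rfl⟩)).and
    ((df_all fun a => df_imp (g r.1 = some a) (df_app (e (.z r.1)) (e (.c a)) (e (.y r.1)))).and
    (df_imp (g r.1 = none ∧ [] ∉ r.2.matches') (df_reg (e .u) reg_nil)))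
  refine ((df_app (e (.z w)) (e .u) (e .r)).and ((df_reg (e (.z w)) (reg_par b)).and
    ((df_reg (e .r) (reg_par (b + 1))).and (d4.and (d5.and d6))))).congr fun σ => ?_
  have : ∀ α, ev σ (List.map (Sum.map id e) α) = ev (σ ∘ e) α := fun α =>
    ev_map _ _ _ _ (by rintro (a | a) _ <;> rfl)
  simp only [this]
  exact ⟨fun h => ⟨h.1, h.2.1, h.2.2.1, h.2.2.2.1, h.2.2.2.2.1, h.2.2.2.2.2⟩,
    fun h => ⟨h.1, h.2, h.3, h.4, h.5, h.6⟩⟩

theorem blk_nil (w : X) (φ : CQ A X) (b : Fin 2) (g : X → Option A) :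
    Blk w φ b g (fun _ => []) :=
  ⟨rfl, Or.inl rfl, Or.inl rfl, fun _ _ => by simp, fun e _ => by simp [ev], fun _ _ => by simp⟩

theorem Blk.off {w : X} {φ : CQ A X} {b : Fin 2} {g : X → Option A} {σ : W A X → List A}
    (h : Blk w φ b g σ) (hu : σ .u = []) : σ (.z w) = [] := by
  have h1 := h.h1
  rw [hu, List.nil_append] at h1
  rcases h.h2 with h2 | h2
  · exact h2
  · rcases h.h3 with h3 | h3
    · rw [h1, h3]
    · rw [h1, h3] at h2
      fin_cases b <;> simp at h2

theorem Blk.on {w : X} {φ : CQ A X} {b : Fin 2} {g : X → Option A} {σ : W A X → List A}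
    (h : Blk w φ b g σ) (hu : σ .u ≠ []) : Sat φ (fun x => σ (.z x)) := by
  have hc : ∀ a, Used φ g a → σ (.c a) = [a] := by
    intro a ha
    obtain ⟨h1, h2, h3, h4, h5⟩ := h.h4 a ha
    rcases h5 with h5 | ⟨_, rfl, h5⟩
    · rcases h3 with h3 | ⟨y, z, -, ⟨_, rfl, rfl⟩, h3⟩
      · simp [h3, hu] at h1
      · rw [h5, List.append_nil] at h2
        exact absurd rfl (h4 _ (by rw [← h2, ← h3]; exact List.mem_append_right _ List.mem_cons_self))
    · exact h5
  refine ⟨fun e he => (h.h5 e he).trans (ev_map _ _ _ _ ?_), fun r hr => ?_⟩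
  · rintro (a | x) ha
    · exact hc a (Or.inl ⟨e, he, ha⟩)
    · rfl
  · obtain ⟨h1, h2, h3⟩ := h.h6 r hr
    rcases h1 with h1 | h1
    · cases hg : g r.1 with
      | none =>
        by_contra hne
        exact hu (h3 ⟨hg, by rwa [← h1]⟩)
      | some a =>
        have := h2 a hg
        rw [h1, hc a (Or.inr ⟨r, hr, hg⟩)] at this
        simp at this
    · exact h1

theorem first_occ (a : A) (v : List A) (h : a ∈ v) :
    ∃ y z, v = y ++ a :: z ∧ ∀ d ∈ y, d ≠ a := by
  induction v with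
  | nil => simp at h
  | cons b v ih =>
    by_cases hb : b = a
    · exact ⟨[], v, by simp [hb], by simp⟩
    · obtain ⟨y, z, h1, h2⟩ := ih (by simpa [Ne.symm hb] using h)
      exact ⟨b :: y, z, by simp [h1], by simpa [hb] using h2⟩

theorem blk_of (w : X) (φ : CQ A X) (τ : X → List A) (hs : ∀ x, τ x <:+: τ w) (h : Sat φ τ)
    (hw : τ w ≠ []) (g : X → Option A) (hg : ∀ r ∈ φ.regs, g r.1 = (τ r.1).head?) :
    ∃ (b : Fin 2) (σ : W A X → List A), Blk w φ b g σ ∧ (∀ x, σ x <:+: τ w) ∧
      σ (.z w) = τ w ∧ σ .u = (τ w).take 1 := by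
  classical
  have hU : ∀ a, Used φ g a → a ∈ τ w := by
    rintro a (⟨e, he, ha⟩ | ⟨r, hr, ha⟩)
    · refine (hs e.1).subset ?_
      rw [h.1 e he]
      exact List.mem_flatMap.2 ⟨_, ha, by simp⟩
    · exact (hs r.1).subset (List.mem_of_mem_head? (by rw [← hg r hr, ha]; rfl))
  have := fun a (ha : Used φ g a) => first_occ a _ (hU a ha)
  choose! Y Z hY hZ using this
  obtain ⟨a0, v, hv⟩ := List.exists_cons_of_ne_nil hw
  let σ : W A X → List A := fun x => match x with
    | .z x => τ x
    | .y x => (τ x).tail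
    | .u => [a0]
    | .r => v
    | .c a => if Used φ g a then [a] else []
    | .t a => if Used φ g a then Y a ++ [a] else []
    | .p a => if Used φ g a then Y a else []
    | .s a => if Used φ g a then (Y a ++ [a]).tail else []
  refine ⟨⟨(τ w).length % 2, Nat.mod_lt _ (by norm_num)⟩, σ, ⟨?_, Or.inr rfl, Or.inr ?_, ?_, ?_, ?_⟩,
    ?_, rfl, by simp [σ, hv]⟩
  · simp [σ, hv]
  · simp only [σ, hv, Fin.val_add, List.length_cons, Fin.val_one]
    omega
  · intro a ha
    simp only [σ, ha, if_true]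
    refine ⟨?_, trivial, Or.inr ⟨Y a, [a], hZ a ha, ⟨a, rfl, rfl⟩, rfl⟩, hZ a ha,
      Or.inr ⟨a, rfl, rfl⟩⟩
    have := hY a ha
    rw [hv] at this
    cases hy : Y a with
    | nil => rw [hy] at this; simp at this; simp [this.1]
    | cons d y => rw [hy] at this; simp at this; simp [this.1]
  · intro e he
    refine (h.1 e he).trans (ev_map _ _ _ _ ?_).symm
    rintro (a | x) ha
    · have : Used φ g a := Or.inl ⟨e, he, ha⟩
      simp [σ, this]
    · rfl
  · intro r hr
    refine ⟨Or.inr (h.2 r hr), fun a ha => ?_, fun hh => ?_⟩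
    · have : Used φ g a := Or.inr ⟨r, hr, ha⟩
      simp only [σ, this, if_true]
      rw [hg r hr] at ha
      exact (List.cons_head?_tail (by rw [ha]; rfl)).symm
    · exfalso
      apply hh.2
      have h1 := hh.1
      rw [hg r hr, List.head?_eq_none_iff] at h1
      rw [← h1]
      exact h.2 r hr
  · have ht : ∀ a, Used φ g a → Y a ++ [a] <:+: τ w := fun a ha =>
      ⟨[], Z a, by rw [hY a ha]; simp⟩
    rintro (x | x | _ | _ | a | a | a | a)
    · exact hs x
    · exact (List.tail_suffix _).isInfix.trans (hs x)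
    · exact ⟨[], v, by simp [σ, hv]⟩
    · exact ⟨[a0], [], by simp [σ, hv]⟩
    all_goals
      by_cases ha : Used φ g a
      swap
      · simp [σ, ha]
      simp only [σ, ha, if_true]
    · exact (List.suffix_append _ _).isInfix.trans (ht a ha)
    · exact ht a ha
    · exact (List.prefix_append _ _).isInfix.trans (ht a ha)
    · exact (List.tail_suffix _).isInfix.trans (ht a ha)

theorem flat_one {J : Type} (F : J → List A) (j : J) : ∀ l : List J, l.Nodup → j ∈ l →
    (∀ i, i ≠ j → F i = []) → l.flatMap F = F j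
  | [], _, h, _ => by simp at h
  | a :: l, hn, h, hF => by
    rw [List.nodup_cons] at hn
    rw [List.flatMap_cons]
    by_cases ha : a = j
    · subst ha
      have : l.flatMap F = [] := List.flatMap_eq_nil_iff.2 fun i hi =>
        hF i fun e => hn.1 (e ▸ hi)
      simp [this]
    · rw [hF a ha, flat_one F j l hn.2 (by simpa [Ne.symm ha] using h) hF, List.nil_append]

end

theorem result (A X : Type) [Finite A] [Countable X] [Infinite X] (w : X) (φs : List (CQ A X)) :
    ∃ φ : CQ A X, lang w φ = ⋃ ψ ∈ φs, lang w ψ := by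
  classical
  have := Fintype.ofFinite A
  let S : Finset X := (φs.flatMap fun ψ => ψ.regs.map Prod.fst).toFinset
  let J := Fin φs.length × Fin 2 × (S → Option A)
  let G : J → X → Option A := fun j x => if h : x ∈ S then j.2.2 ⟨x, h⟩ else none
  let l : List J := (Finset.univ : Finset J).toList
  have hl : l.Nodup := Finset.nodup_toList _
  have hm : ∀ j, j ∈ l := by simp [l]
  let V := Bool ⊕ (J × W A X)
  have d : Df (fun σ : V → List A =>
      σ (.inl true) = ev σ (l.map fun j => .inr (.inr (j, .z w))) ∧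
      σ (.inl false) = ev σ (l.map fun j => .inr (.inr (j, .u))) ∧
      (σ (.inl false) = [] ∨ (σ (.inl false)).length = 1) ∧
      ([] ∉ (⋃ ψ ∈ φs, lang w ψ) → (σ (.inl false)).length = 1) ∧
      ∀ j : J, Blk w φs[j.1] j.2.1 (G j) (σ ∘ fun x => .inr (j, x))) :=
    (df_eq _ _).and ((df_eq _ _).and ((df_reg _ (reg_nil.or reg_one)).and
      ((df_imp _ (df_reg _ reg_one)).and (df_all fun j => df_blk _ _ _ _ _))))
  obtain ⟨φ, hφ⟩ := d
  obtain ⟨ψ, hψ⟩ := transfer w (Sum.inl true : V) φ
  refine ⟨ψ, hψ.trans (Set.ext fun v => ⟨?_, fun hv => ?_⟩)⟩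
  · rintro ⟨σ, hs, h, rfl⟩
    obtain ⟨h1, h2, h3, h4, h5⟩ := (hφ σ).1 h
    simp only [ev, List.flatMap_map, Sum.elim_inr] at h1 h2
    by_cases hu : ∃ j : J, σ (.inr (j, .u)) ≠ []
    · obtain ⟨j, hj⟩ := hu
      have ho : ∀ i : J, i ≠ j → σ (.inr (i, .u)) = [] := by
        intro i hi
        by_contra hne
        have h6 : (σ (.inl false)).length = ∑ k : J, (σ (.inr (k, .u))).length := by
          rw [h2, List.length_flatMap, Finset.sum_map_toList]
        have h7 := Finset.add_le_sum (s := Finset.univ)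
          (f := fun k : J => (σ (.inr (k, .u))).length) (fun _ _ => Nat.zero_le _)
          (Finset.mem_univ i) (Finset.mem_univ j) hi
        have h8 := List.length_pos_iff.2 hne
        have h9 := List.length_pos_iff.2 hj
        rcases h3 with h3 | h3
        · rw [h3] at h6
          simp only [List.length_nil] at h6
          omega
        · omega
      rw [flat_one (fun a => σ (.inr (a, .z w))) j l hl (hm j)
        fun i hi => (h5 i).off (ho i hi)] at h1
      refine Set.mem_biUnion (List.getElem_mem j.1.2)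
        ⟨fun x => σ (.inr (j, .z x)), fun x => ?_, (h5 j).on hj, h1.symm⟩
      have := hs (.inr (j, .z x))
      rwa [h1] at this
    · push Not at hu
      have h6 : σ (.inl true) = [] :=
        h1.trans (List.flatMap_eq_nil_iff.2 fun j _ => (h5 j).off (hu j))
      have h7 : σ (.inl false) = [] := h2.trans (List.flatMap_eq_nil_iff.2 fun j _ => hu j)
      rw [h6]
      by_contra hne
      have := h4 hne
      simp [h7] at this
  · by_cases hv0 : v = []
    · subst hv0
      refine ⟨fun _ => [], fun _ => List.nil_infix, (hφ _).2 ⟨by simp [ev], by simp [ev],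
        Or.inl rfl, fun h => absurd hv h, fun j => blk_nil _ _ _ _⟩, rfl⟩
    · obtain ⟨χ, hχ, τ, hs, h, rfl⟩ := Set.mem_iUnion₂.1 hv
      obtain ⟨i, rfl⟩ := List.get_of_mem hχ
      obtain ⟨b, σ, k1, k2, k3, k4⟩ := blk_of w _ τ hs h hv0
        (G (i, 0, fun x => (τ x).head?)) (by
          intro r hr
          have : r.1 ∈ S := by
            simp only [S, List.mem_toFinset, List.mem_flatMap, List.mem_map]
            exact ⟨_, hχ, r, hr, rfl⟩
          simp [G, this])
      let j : J := (i, b, fun x => (τ x).head?)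
      let ρ : V → List A := Sum.elim (fun t => if t then τ w else (τ w).take 1)
        fun x => if x.1 = j then σ x.2 else []
      have hlen : ((τ w).take 1).length = 1 := by
        have := List.length_pos_iff.2 hv0
        rw [List.length_take]
        omega
      refine ⟨ρ, ?_, (hφ _).2 ⟨?_, ?_, Or.inr hlen, fun _ => hlen, fun k => ?_⟩, rfl⟩
      · rintro ((_ | _) | ⟨k, x⟩)
        · exact (List.take_prefix _ _).isInfix
        · exact List.infix_rfl
        · by_cases hk : k = j
          · simpa [ρ, hk] using k2 x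
          · simp [ρ, hk]
      · simp only [ev, List.flatMap_map, Sum.elim_inr]
        rw [flat_one _ j l hl (hm j) fun i hi => by simp [ρ, hi]]
        simp [ρ, k3]
      · simp only [ev, List.flatMap_map, Sum.elim_inr]
        rw [flat_one _ j l hl (hm j) fun i hi => by simp [ρ, hi]]
        simp [ρ, k4]
      · by_cases hk : k = j
        · subst hk
          have : (ρ ∘ fun x => Sum.inr (j, x)) = σ := funext fun x => by simp [ρ]
          rw [this]
          exact k1
        · have : (ρ ∘ fun x => Sum.inr (k, x)) = fun _ => [] := funext fun x => by simp [ρ, hk]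
          rw [this]
          exact blk_nil _ _ _ _

end Pool.Agent.Results.MP_c07d1e_lc.Union
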